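import Mathlib
import Pool.Agent.MP_c1891a_nt.H91.Spec

/-
Row Def: the truncated logarithmic average over the conjugates is positive.
-/

namespace Pool.Agent.MP_c1891a_nt.H91

open Finset Polynomial

lemma dfc_prod {p : ℕ} (hp : 0 < p) {ζ : ℂ} (hζ : IsPrimitiveRoot ζ p) (z α : ℂ) :
    ∏ j ∈ range p, ‖ζ ^ j * z - α‖ = ‖α ^ p - z ^ p‖ := by
  have h := X_pow_sub_C_eq_prod hζ hp (rfl : z ^ p = z ^ p)
  have h2 := congrArg (fun q => ‖Polynomial.eval α q‖) h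
  simp only [eval_sub, eval_pow, eval_X, eval_C, eval_prod, norm_prod] at h2
  rw [h2]
  exact Finset.prod_congr rfl fun j _ => norm_sub_rev _ _

lemma dfc_pig (R : Multiset ℂ) (n : ℕ) (hn : R.card ≤ n) (s : ℝ) (hs : 0 < s) :
    ∃ t : ℕ, t ≤ n ∧ ∀ β ∈ R, s / 2 ≤ ‖β - ((1 + t * s : ℝ) : ℂ)‖ := by
  classical
  by_contra hcon
  push Not at hcon
  have hex : ∀ t : ℕ, ∃ β : ℂ, t ≤ n → β ∈ R ∧ ‖β - ((1 + t * s : ℝ) : ℂ)‖ < s / 2 := by
    intro t
    by_cases ht : t ≤ n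
    · obtain ⟨β, hβ, h⟩ := hcon t ht
      exact ⟨β, fun _ => ⟨hβ, h⟩⟩
    · exact ⟨0, fun h => absurd h ht⟩
  choose f hf using hex
  have hcard : R.toFinset.card < (range (n + 1)).card := by
    rw [card_range]
    exact lt_of_le_of_lt (R.toFinset_card_le.trans hn) (Nat.lt_succ_self n)
  obtain ⟨t, ht, t', ht', hne, heq⟩ := Finset.exists_ne_map_eq_of_card_lt_of_maps_to hcard
    (f := f) (fun t ht => by
      have := (hf t (Nat.lt_succ_iff.mp (mem_range.mp ht))).1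
      simpa using this)
  have h1 := (hf t (Nat.lt_succ_iff.mp (mem_range.mp ht))).2
  have h2 := (hf t' (Nat.lt_succ_iff.mp (mem_range.mp ht'))).2
  rw [heq] at h1
  have h3 : ‖((1 + t * s : ℝ) : ℂ) - ((1 + t' * s : ℝ) : ℂ)‖ < s := by
    have : ((1 + t * s : ℝ) : ℂ) - ((1 + t' * s : ℝ) : ℂ) =
        (f t' - ((1 + t' * s : ℝ) : ℂ)) - (f t' - ((1 + t * s : ℝ) : ℂ)) := by ring
    rw [this]
    have := norm_sub_le (f t' - ((1 + t' * s : ℝ) : ℂ)) (f t' - ((1 + t * s : ℝ) : ℂ))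
    linarith
  rw [← Complex.ofReal_sub, Complex.norm_real, Real.norm_eq_abs, abs_lt] at h3
  rcases lt_or_gt_of_ne hne with h | h
  · have : (t : ℝ) + 1 ≤ t' := by exact_mod_cast h
    nlinarith [h3.1]
  · have : (t' : ℝ) + 1 ≤ t := by exact_mod_cast h
    nlinarith [h3.2]

lemma dfc_low (β : ℂ) (w s : ℝ) (hw1 : 1 ≤ w) (hw2 : w ≤ 2) (hs : 0 < s) (hs1 : s ≤ 1)
    (h : s / 2 ≤ ‖β - (w : ℂ)‖) : s / 8 * max 1 ‖β‖ ≤ ‖β - (w : ℂ)‖ := by
  by_cases hβ : ‖β‖ ≤ 4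
  · have : max 1 ‖β‖ ≤ 4 := max_le (by norm_num) hβ
    nlinarith
  · push Not at hβ
    rw [max_eq_right (by linarith)]
    have h1 : ‖β‖ - ‖(w : ℂ)‖ ≤ ‖β - (w : ℂ)‖ := norm_sub_norm_le _ _
    rw [Complex.norm_real, Real.norm_eq_abs, abs_of_nonneg (by linarith)] at h1
    nlinarith

lemma dfc_multi (p : ℕ) (x : ℕ → ℂ) (d : ℝ) (hd : 0 ≤ d) (m : Multiset ℂ)
    (h : ∀ α ∈ m, d * (max 1 ‖α‖) ^ p ≤ ∏ j ∈ range p, ‖x j - α‖) :
    d ^ m.card * (m.map (fun a => max 1 ‖a‖)).prod ^ p ≤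
      ∏ j ∈ range p, ‖(m.map (x j - ·)).prod‖ := by
  induction m using Multiset.induction_on with
  | empty => simp
  | cons a m ih =>
    have h1 := h a (Multiset.mem_cons_self _ _)
    have h2 := ih fun α hα => h α (Multiset.mem_cons_of_mem hα)
    simp only [Multiset.card_cons, Multiset.map_cons, Multiset.prod_cons, norm_mul,
      prod_mul_distrib]
    have hp : 0 ≤ (m.map (fun a => max 1 ‖a‖)).prod :=
      Multiset.prod_nonneg fun y hy => by
        obtain ⟨b, _, rfl⟩ := Multiset.mem_map.mp hy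
        positivity
    calc d ^ (m.card + 1) * (max 1 ‖a‖ * (m.map (fun a => max 1 ‖a‖)).prod) ^ p
        = (d * (max 1 ‖a‖) ^ p) * (d ^ m.card * (m.map (fun a => max 1 ‖a‖)).prod ^ p) := by
          rw [mul_pow]; ring
      _ ≤ _ := mul_le_mul h1 h2 (by positivity) (Finset.prod_nonneg fun _ _ => norm_nonneg _)

lemma dfc_core (F : ℂ[X]) {p : ℕ} (hp : 0 < p) {ζ : ℂ} (hζ : IsPrimitiveRoot ζ p) (n : ℕ)
    (hn : F.natDegree ≤ n) (η : ℝ) (hη : 0 < η) (hη1 : η ≤ 1) :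
    ∃ z : ℝ, 1 ≤ z ∧ z ^ p ≤ 1 + η ∧
      (η / (8 * (n + 1))) ^ n * F.mahlerMeasure ^ p ≤
        ∏ j ∈ range p, ‖F.eval (ζ ^ j * z)‖ := by
  have hcard : F.roots.card ≤ n := (card_roots' F).trans hn
  have hn0 : (0 : ℝ) < n + 1 := by positivity
  set s : ℝ := η / (n + 1) with hs
  have hs0 : 0 < s := by positivity
  have hsη : s * (n + 1) = η := by rw [hs]; field_simp
  have hs1 : s ≤ 1 := by
    have : (0 : ℝ) ≤ n := by positivity
    nlinarith
  obtain ⟨t, ht, hfar⟩ := dfc_pig (F.roots.map (· ^ p)) n (by simpa using hcard) s hs0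
  have htn : (t : ℝ) ≤ n := by exact_mod_cast ht
  set w : ℝ := 1 + t * s with hw
  have hw1 : 1 ≤ w := by
    have : 0 ≤ (t : ℝ) * s := by positivity
    linarith
  have hw2 : w ≤ 1 + η := by nlinarith
  have hz : (w ^ ((p : ℝ)⁻¹)) ^ p = w := Real.rpow_inv_natCast_pow (by linarith) hp.ne'
  refine ⟨w ^ ((p : ℝ)⁻¹), Real.one_le_rpow hw1 (by positivity), by rw [hz]; exact hw2, ?_⟩
  have hm := dfc_multi p (fun j => ζ ^ j * ((w ^ ((p : ℝ)⁻¹) : ℝ) : ℂ)) (s / 8) (by positivity)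
    F.roots (fun α hα => by
      rw [dfc_prod hp hζ, ← Complex.ofReal_pow, hz]
      have h1 := dfc_low (α ^ p) w s hw1 (by linarith) hs0 hs1
        (hfar _ (Multiset.mem_map_of_mem _ hα))
      have h2 : (max 1 ‖α‖) ^ p = max 1 ‖α ^ p‖ := by
        rw [norm_pow]
        rcases le_total 1 ‖α‖ with h | h
        · rw [max_eq_right h, max_eq_right (one_le_pow₀ h)]
        · rw [max_eq_left h, max_eq_left (pow_le_one₀ (norm_nonneg _) h), one_pow]
      rw [h2]; exact h1)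
  have hev : ∏ j ∈ range p, ‖F.eval (ζ ^ j * ((w ^ ((p : ℝ)⁻¹) : ℝ) : ℂ))‖ =
      ‖F.leadingCoeff‖ ^ p * ∏ j ∈ range p,
        ‖(F.roots.map (ζ ^ j * ((w ^ ((p : ℝ)⁻¹) : ℝ) : ℂ) - ·)).prod‖ := by
    rw [Finset.prod_congr rfl fun j _ => by
      rw [(IsAlgClosed.splits F).eval_eq_prod_roots, norm_mul]]
    rw [prod_mul_distrib, prod_const, card_range]
  rw [hev, mahlerMeasure_eq_leadingCoeff_mul_prod_roots, mul_pow]
  have he : η / (8 * (n + 1)) = s / 8 := by rw [hs]; field_simp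
  rw [he]
  have hle : (s / 8) ^ n ≤ (s / 8) ^ F.roots.card :=
    pow_le_pow_of_le_one (by positivity) (by linarith) hcard
  have hP : 0 ≤ (F.roots.map (fun a => max 1 ‖a‖)).prod ^ p :=
    pow_nonneg (zero_le_one.trans (one_le_prod_max_one_norm_roots F)) _
  calc (s / 8) ^ n * (‖F.leadingCoeff‖ ^ p * (F.roots.map (fun a => max 1 ‖a‖)).prod ^ p)
      = ‖F.leadingCoeff‖ ^ p * ((s / 8) ^ n * (F.roots.map (fun a => max 1 ‖a‖)).prod ^ p) := by
        ring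
    _ ≤ ‖F.leadingCoeff‖ ^ p *
          ((s / 8) ^ F.roots.card * (F.roots.map (fun a => max 1 ‖a‖)).prod ^ p) := by
        gcongr
    _ ≤ _ := by gcongr

lemma dfc_eval (k c : ℤ) (a b : ℕ) (x : ℂ) :
    ((FP k c a b).map (Int.castRingHom ℂ)).eval x =
      k * x ^ a + c * (x ^ (2 * a) + 1 + x ^ (a + b) + x ^ (a - b)) := by
  simp [FP, Polynomial.map_add, Polynomial.map_mul, Polynomial.map_pow]

lemma dfc_deg (k c : ℤ) (a b : ℕ) (hb : b ≤ a) :
    ((FP k c a b).map (Int.castRingHom ℂ)).natDegree ≤ 2 * a := by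
  refine natDegree_map_le.trans ?_
  unfold FP
  refine natDegree_add_le_of_degree_le ?_ ?_
  · exact (natDegree_C_mul_le _ _).trans (by rw [natDegree_X_pow]; omega)
  · refine (natDegree_C_mul_le _ _).trans ?_
    refine natDegree_add_le_of_degree_le (natDegree_add_le_of_degree_le
      (natDegree_add_le_of_degree_le ?_ ?_) ?_) ?_
    · rw [natDegree_X_pow]
    · simp
    · rw [natDegree_X_pow]; omega
    · rw [natDegree_X_pow]; omega

lemma dfc_pert (k c : ℤ) (a b p : ℕ) (hb : b ≤ a) (ha : 2 * a ≤ p) (u : ℂ) (hu : ‖u‖ = 1)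
    (z η : ℝ) (hz : 1 ≤ z) (hzp : z ^ p ≤ 1 + η) :
    ‖((FP k c a b).map (Int.castRingHom ℂ)).eval (u * z)‖ ≤
      ‖PV k c (u ^ a) (u ^ b)‖ + (|(k : ℝ)| + 4 * |(c : ℝ)|) * η := by
  have hu0 : u ≠ 0 := by rintro rfl; simp at hu
  have hm : ∀ m : ℕ, m ≤ p → ‖(u * z) ^ m - u ^ m‖ ≤ η := by
    intro m hm
    have : (u * z) ^ m - u ^ m = u ^ m * ((z ^ m - 1 : ℝ) : ℂ) := by push_cast; ring
    rw [this, norm_mul, norm_pow, hu, one_pow, one_mul, Complex.norm_real, Real.norm_eq_abs,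
      abs_of_nonneg (by linarith [one_le_pow₀ (n := m) hz])]
    linarith [pow_le_pow_right₀ hz hm]
  have hη : 0 ≤ η := by linarith [one_le_pow₀ (n := p) hz]
  have h0 : (k : ℂ) * u ^ a + c * (u ^ (2 * a) + 1 + u ^ (a + b) + u ^ (a - b)) =
      u ^ a * PV k c (u ^ a) (u ^ b) := by
    rw [PV, pow_sub₀ _ hu0 hb, pow_add, two_mul, pow_add]
    field_simp
  have h1 : ((FP k c a b).map (Int.castRingHom ℂ)).eval (u * z) =
      u ^ a * PV k c (u ^ a) (u ^ b) + (k * ((u * z) ^ a - u ^ a) +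
        c * (((u * z) ^ (2 * a) - u ^ (2 * a)) + ((u * z) ^ (a + b) - u ^ (a + b)) +
          ((u * z) ^ (a - b) - u ^ (a - b)))) := by
    rw [dfc_eval, ← h0]; ring
  rw [h1]
  refine (norm_add_le _ _).trans ?_
  rw [norm_mul, norm_pow, hu, one_pow, one_mul]
  refine add_le_add le_rfl ((norm_add_le _ _).trans ?_)
  rw [norm_mul, norm_mul, Complex.norm_intCast, Complex.norm_intCast]
  have e1 := hm a (by omega)
  have e2 := hm (2 * a) ha
  have e3 := hm (a + b) (by omega)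
  have e4 := hm (a - b) (by omega)
  have e5 : ‖((u * z) ^ (2 * a) - u ^ (2 * a)) + ((u * z) ^ (a + b) - u ^ (a + b)) +
      ((u * z) ^ (a - b) - u ^ (a - b))‖ ≤ 4 * η :=
    (norm_add₃_le).trans (by linarith)
  have := mul_le_mul_of_nonneg_left e1 (abs_nonneg (k : ℝ))
  have := mul_le_mul_of_nonneg_left e5 (abs_nonneg (c : ℝ))
  linarith

lemma dfc_E_mul (p : ℕ) (x y : ℤ) : E p (x * y) = E p x ^ y := by
  unfold E
  rw [← Complex.exp_int_mul]
  congr 1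
  push_cast
  ring

lemma dfc_E_congr {p : ℕ} (hp : 0 < p) {x y : ℤ} (h : (p : ℤ) ∣ x - y) : E p x = E p y := by
  obtain ⟨q, hq⟩ := h
  have hx : x = y + p * q := by linarith
  have hp' : (p : ℂ) ≠ 0 := by exact_mod_cast hp.ne'
  unfold E
  rw [hx, Complex.exp_eq_exp_iff_exists_int]
  refine ⟨q, ?_⟩
  push_cast
  field_simp

lemma dfc_E_prim {p : ℕ} (hp : 0 < p) {κ : ℤ} (h : IsCoprime κ p) :
    IsPrimitiveRoot (E p κ) p := by
  have := Complex.isPrimitiveRoot_exp_of_isCoprime κ p hp.ne' h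
  unfold E
  rwa [mul_div_assoc]

lemma dfc_sym (u : ℂ) (x : ℤ) : u ^ x + (u ^ x)⁻¹ = u ^ x.natAbs + (u ^ x.natAbs)⁻¹ := by
  rcases Int.natAbs_eq x with h | h
  · conv_lhs => rw [h]
    rw [zpow_natCast]
  · conv_lhs => rw [h]
    rw [zpow_neg, zpow_natCast, inv_inv, add_comm]

lemma dfc_thue0 {p : ℕ} (hp : p.Prime) (a b : ℤ) (ha : ¬ (p : ℤ) ∣ a) :
    ∃ κ x y : ℤ, IsCoprime κ p ∧ Nat.Coprime x.natAbs y.natAbs ∧ x.natAbs ≤ Nat.sqrt p ∧
      y.natAbs ≤ Nat.sqrt p ∧ (p : ℤ) ∣ a - κ * x ∧ (p : ℤ) ∣ b - κ * y := by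
  have hpZ : Prime (p : ℤ) := Nat.prime_iff_prime_int.mp hp
  have hp0 : (0 : ℝ) < p := by exact_mod_cast hp.pos
  obtain ⟨a', r, har⟩ : IsCoprime a (p : ℤ) :=
    ((Prime.coprime_iff_not_dvd hpZ).mpr ha).symm
  have hs : 0 < Nat.sqrt p := Nat.sqrt_pos.mpr hp.pos
  obtain ⟨j, x, hx0, hx1, hj⟩ := Real.exists_int_int_abs_mul_sub_le ((a' * b : ℤ) / (p : ℝ)) hs
  set y : ℤ := x * (a' * b) - j * p with hy
  have hyb : |y| ≤ Nat.sqrt p := by
    have h1 : (y : ℝ) = p * ((x : ℝ) * (((a' * b : ℤ) : ℝ) / p) - j) := by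
      rw [hy]; push_cast; field_simp
    have h2 : |(y : ℝ)| ≤ p * (1 / ((Nat.sqrt p : ℝ) + 1)) := by
      rw [h1, abs_mul, abs_of_pos hp0]
      exact mul_le_mul_of_nonneg_left hj hp0.le
    have h3 : (p : ℝ) < ((Nat.sqrt p : ℝ) + 1) * ((Nat.sqrt p : ℝ) + 1) := by
      exact_mod_cast Nat.lt_succ_sqrt p
    have h4 : (p : ℝ) * (1 / ((Nat.sqrt p : ℝ) + 1)) < (Nat.sqrt p : ℝ) + 1 := by
      rw [mul_one_div, div_lt_iff₀ (by positivity)]; exact h3
    have h5 : |(y : ℝ)| < (Nat.sqrt p : ℝ) + 1 := h2.trans_lt h4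
    have h6 : |y| < (Nat.sqrt p : ℤ) + 1 := by exact_mod_cast h5
    omega
  have hxp : ¬ (p : ℤ) ∣ x := by
    intro h
    have h1 := Int.le_of_dvd hx0 h
    have h2 : Nat.sqrt p < p := Nat.sqrt_lt_self hp.one_lt
    omega
  obtain ⟨x', r', hxr⟩ : IsCoprime x (p : ℤ) :=
    ((Prime.coprime_iff_not_dvd hpZ).mpr hxp).symm
  have hg : 0 < Int.gcd x y := Int.gcd_pos_of_ne_zero_left _ hx0.ne'
  obtain ⟨g, x₁, y₁, hg0, hco, hx, hy1⟩ := Int.exists_gcd_one' hg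
  have hdx : (p : ℤ) ∣ a - a * x' * g * x₁ := by
    refine ⟨a * r', ?_⟩
    rw [mul_assoc (a * x'), mul_comm (g : ℤ) x₁, ← hx]
    linear_combination (-a) * hxr
  have hdy : (p : ℤ) ∣ b - a * x' * g * y₁ := by
    refine ⟨b * r + a * a' * b * r' + a * x' * j, ?_⟩
    rw [mul_assoc (a * x'), mul_comm (g : ℤ) y₁, ← hy1, hy]
    linear_combination (-b) * har - a * a' * b * hxr
  refine ⟨a * x' * g, x₁, y₁, ?_, hco, ?_, ?_, hdx, hdy⟩
  · refine ((Prime.coprime_iff_not_dvd hpZ).mpr fun h => ha ?_).symm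
    have := (Dvd.dvd.mul_right h x₁).add hdx
    simpa using this
  · have h1 : x₁.natAbs ≤ x.natAbs := by
      rw [hx, Int.natAbs_mul, Int.natAbs_natCast]
      exact Nat.le_mul_of_pos_right _ hg0
    omega
  · have h1 : y₁.natAbs ≤ y.natAbs := by
      rw [hy1, Int.natAbs_mul, Int.natAbs_natCast]
      exact Nat.le_mul_of_pos_right _ hg0
    have : (y.natAbs : ℤ) = |y| := Int.natCast_natAbs y
    omega

lemma dfc_thue (k c : ℤ) {p : ℕ} (hp : p.Prime) (B : ℕ) (hB : 1 ≤ B) (a b : ℤ)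
    (h : NoRel p B a b) :
    ∃ (ζ : ℂ) (a' b' : ℕ), IsPrimitiveRoot ζ p ∧ b' < a' ∧ Nat.Coprime a' b' ∧ B ≤ a' ∧
      a' ≤ Nat.sqrt p ∧ ∀ j : ℕ,
        PV k c (E p (a * j)) (E p (b * j)) = PV k c ((ζ ^ j) ^ a') ((ζ ^ j) ^ b') := by
  have ha : ¬ (p : ℤ) ∣ a := by
    intro hd
    have := (h 1 0 (by simpa using hB) (by simp) (by simpa using hd)).1
    omega
  obtain ⟨κ, x, y, hκ, hco, hx, hy, hdx, hdy⟩ := dfc_thue0 hp a b ha
  have hrel : (p : ℤ) ∣ y * a + (-x) * b := by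
    have : y * a + (-x) * b = y * (a - κ * x) - x * (b - κ * y) := by ring
    rw [this]
    exact (Dvd.dvd.mul_left hdx y).sub (Dvd.dvd.mul_left hdy x)
  have hbig : B < x.natAbs ∨ B < y.natAbs := by
    by_contra hcon
    push Not at hcon
    have h1 : |y| ≤ B := by rw [← Int.natCast_natAbs]; exact_mod_cast hcon.2
    have h2 : |-x| ≤ B := by rw [abs_neg, ← Int.natCast_natAbs]; exact_mod_cast hcon.1
    obtain ⟨e1, e2⟩ := h y (-x) h1 h2 hrel
    have e3 : x = 0 := by omega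
    rw [e1, e3] at hco
    simp at hco
  have hne : x.natAbs ≠ y.natAbs := by
    intro he
    rw [← he, Nat.coprime_self] at hco
    omega
  have hE : ∀ j : ℕ, PV k c (E p (a * j)) (E p (b * j)) =
      PV k c ((E p κ ^ j) ^ x.natAbs) ((E p κ ^ j) ^ y.natAbs) := by
    intro j
    have e1 : E p (a * j) = (E p κ ^ j) ^ x := by
      rw [← zpow_natCast, ← dfc_E_mul, ← dfc_E_mul]
      refine dfc_E_congr hp.pos ?_
      have : a * j - κ * j * x = (a - κ * x) * j := by ring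
      rw [this]; exact Dvd.dvd.mul_right hdx _
    have e2 : E p (b * j) = (E p κ ^ j) ^ y := by
      rw [← zpow_natCast, ← dfc_E_mul, ← dfc_E_mul]
      refine dfc_E_congr hp.pos ?_
      have : b * j - κ * j * y = (b - κ * y) * j := by ring
      rw [this]; exact Dvd.dvd.mul_right hdy _
    rw [e1, e2]
    unfold PV
    have s1 := dfc_sym (E p κ ^ j) x
    have s2 := dfc_sym (E p κ ^ j) y
    linear_combination (c : ℂ) * s1 + (c : ℂ) * s2
  rcases lt_or_gt_of_ne hne with hl | hl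
  · refine ⟨E p κ, y.natAbs, x.natAbs, dfc_E_prim hp.pos hκ, hl, hco.symm, by omega, hy,
      fun j => ?_⟩
    rw [hE]; unfold PV; ring
  · exact ⟨E p κ, x.natAbs, y.natAbs, dfc_E_prim hp.pos hκ, hl, hco, by omega, hx, hE⟩

lemma dfc_asym (m C D : ℝ) (hm : 0 < m) (hC : 0 ≤ C) (hD : 0 ≤ D) :
    ∃ p₀ : ℕ, ∀ p : ℕ, p₀ ≤ p → ∀ n : ℝ, 0 ≤ n → n ^ 2 ≤ 4 * p →
      n * (C + D * Real.log p) + 1 ≤ m * p := by
  obtain ⟨q₀, hq₀⟩ := exists_nat_ge (max 1 ((2 * C + 8 * D + 1) / m))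
  refine ⟨q₀ ^ 4, fun p hp n hn0 hn => ?_⟩
  have h1 : (1 : ℝ) ≤ q₀ := (le_max_left _ _).trans hq₀
  have h2 : 2 * C + 8 * D + 1 ≤ q₀ * m := (div_le_iff₀ hm).mp ((le_max_right _ _).trans hq₀)
  have hp' : (q₀ : ℝ) ^ 4 ≤ p := by exact_mod_cast hp
  have hp0 : (0 : ℝ) ≤ p := by positivity
  set q : ℝ := Real.sqrt (Real.sqrt p) with hq
  have hq0 : 0 ≤ q := Real.sqrt_nonneg _
  have hq2 : q ^ 2 = Real.sqrt p := Real.sq_sqrt (Real.sqrt_nonneg _)
  have hq4 : q ^ 4 = p := by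
    rw [show q ^ 4 = (q ^ 2) ^ 2 by ring, hq2, Real.sq_sqrt hp0]
  have hqq : (q₀ : ℝ) ≤ q := by
    rw [← hq4] at hp'
    exact le_of_pow_le_pow_left₀ (by norm_num) hq0 hp'
  have hq1 : 1 ≤ q := h1.trans hqq
  have hlog : Real.log p ≤ 4 * q := by
    rw [← hq4, Real.log_pow]
    have := Real.log_le_sub_one_of_pos (by linarith : 0 < q)
    push_cast
    linarith
  have hnq : n ≤ 2 * q ^ 2 := by
    refine le_of_pow_le_pow_left₀ (n := 2) (by norm_num) (by positivity) ?_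
    calc n ^ 2 ≤ 4 * p := hn
      _ = (2 * q ^ 2) ^ 2 := by rw [← hq4]; ring
  have hq3 : 1 ≤ q ^ 3 := one_le_pow₀ hq1
  have hq23 : q ^ 2 ≤ q ^ 3 := pow_le_pow_right₀ hq1 (by norm_num)
  calc n * (C + D * Real.log p) + 1 ≤ n * (C + D * (4 * q)) + 1 := by gcongr
    _ ≤ 2 * q ^ 2 * (C + D * (4 * q)) + 1 := by gcongr
    _ = 2 * C * q ^ 2 + 8 * D * q ^ 3 + 1 := by ring
    _ ≤ 2 * C * q ^ 3 + 8 * D * q ^ 3 + q ^ 3 := by gcongr
    _ = (2 * C + 8 * D + 1) * q ^ 3 := by ring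
    _ ≤ (q * m) * q ^ 3 := by
        have : (q₀ : ℝ) * m ≤ q * m := by gcongr
        gcongr
        linarith
    _ = m * p := by rw [← hq4]; ring

theorem dfc (h : SMah) : SDef := by
  intro k c hadm A
  obtain ⟨m₀, hm₀, B, hB⟩ := h k c hadm
  obtain ⟨-, hkc, -⟩ := hadm
  have hc : (1 : ℝ) ≤ c := by
    have : 0 ≤ |k| := abs_nonneg k
    have : 1 ≤ c := by omega
    exact_mod_cast this
  have hk : |(k : ℝ)| ≤ 4 * c := by exact_mod_cast hkc.le
  obtain ⟨p₀, hp₀⟩ := dfc_asym (m₀ / 2) (Real.log (128 * c)) (A + 2) (by positivity)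
    (Real.log_nonneg (by linarith)) (by positivity)
  refine ⟨m₀ / 2, by positivity, max B 1, max p₀ 4, fun p hp hpp a b hab => ?_⟩
  obtain ⟨ζ, a', b', hζ, hba, hco, hBa, hap, hE⟩ :=
    dfc_thue k c hp (max B 1) (le_max_right _ _) a b hab
  have hp4 : 4 ≤ p := (le_max_right _ _).trans hpp
  have hp1 : (1 : ℝ) ≤ p := by exact_mod_cast hp.one_le
  have hsq : a' * a' ≤ p := Nat.le_sqrt.mp hap
  have h2a : 2 * a' ≤ p := by nlinarith
  set F := (FP k c a' b').map (Int.castRingHom ℂ) with hF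
  have hM : m₀ ≤ Real.log F.mahlerMeasure := by
    rw [← logMahlerMeasure_eq_log_MahlerMeasure]
    exact hB a' b' hba hco ((le_max_left _ _).trans hBa)
  have hM0 : 0 < F.mahlerMeasure := by
    rcases (mahlerMeasure_nonneg F).lt_or_eq with h0 | h0
    · exact h0
    · rw [← h0, Real.log_zero] at hM; linarith
  set τ : ℝ := ((p : ℝ) ^ A)⁻¹ with hτ
  have hτ0 : 0 < τ := by positivity
  have hτ1 : τ ≤ 1 := inv_le_one_of_one_le₀ (one_le_pow₀ hp1)
  set η : ℝ := τ / (8 * c * p) with hη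
  have hη0 : 0 < η := by positivity
  have hη1 : η ≤ 1 := by
    rw [hη, div_le_one (by positivity)]
    nlinarith
  obtain ⟨z, hz1, hzp, hprod⟩ := dfc_core F hp.pos hζ (2 * a') (dfc_deg k c a' b' hba.le) η hη0 hη1
  have hnz : ‖ζ‖ = 1 := hζ.norm'_eq_one hp.ne_zero
  have hup : ∀ j ∈ range p, ‖F.eval (ζ ^ j * z)‖ ≤
      max ‖PV k c (E p (a * j)) (E p (b * j))‖ τ * (1 + 1 / p) := by
    intro j _
    have h1 := dfc_pert k c a' b' p hba.le h2a (ζ ^ j) (by rw [norm_pow, hnz, one_pow]) z η hz1 hzp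
    rw [← hE] at h1
    have h2 : (|(k : ℝ)| + 4 * |(c : ℝ)|) * η ≤ τ * (1 / p) := by
      rw [abs_of_pos (by linarith : (0 : ℝ) < c)]
      calc (|(k : ℝ)| + 4 * c) * η ≤ (8 * c) * η := by gcongr; linarith
        _ = τ * (1 / p) := by rw [hη]; field_simp
    have h3 := le_max_left ‖PV k c (E p (a * j)) (E p (b * j))‖ τ
    have h4 : τ * (1 / p) ≤ max ‖PV k c (E p (a * j)) (E p (b * j))‖ τ * (1 / p) := by
      gcongr; exact le_max_right _ _
    linarith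
  have hle := hprod.trans (Finset.prod_le_prod (fun _ _ => norm_nonneg _) hup)
  have hpos : ∀ j ∈ range p, 0 < max ‖PV k c (E p (a * j)) (E p (b * j))‖ τ :=
    fun j _ => lt_max_of_lt_right hτ0
  have hlog := Real.log_le_log (by positivity) hle
  rw [prod_mul_distrib, prod_const, card_range,
    Real.log_mul (by positivity) (by positivity),
    Real.log_mul (Finset.prod_pos hpos).ne' (by positivity),
    Real.log_prod (fun j hj => (hpos j hj).ne'), Real.log_pow, Real.log_pow, Real.log_pow] at hlog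
  have hl1 : (p : ℝ) * Real.log (1 + 1 / p) ≤ 1 := by
    have := Real.log_le_sub_one_of_pos (by positivity : (0 : ℝ) < 1 + 1 / p)
    calc (p : ℝ) * Real.log (1 + 1 / p) ≤ p * (1 / p) := by gcongr; linarith
      _ = 1 := by field_simp
  have hl2 : -(Real.log (128 * c) + (A + 2) * Real.log p) ≤
      Real.log (η / (8 * (((2 * a' : ℕ) : ℝ) + 1))) := by
    have e : Real.log (128 * c) + (A + 2) * Real.log p = Real.log (128 * c * p ^ (A + 2)) := by
      rw [Real.log_mul (x := 128 * c) (by positivity) (by positivity), Real.log_pow]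
      push_cast; ring
    rw [e, ← Real.log_inv]
    refine Real.log_le_log (by positivity) ?_
    have h2a' : (((2 * a' : ℕ) : ℝ)) ≤ p := by exact_mod_cast h2a
    calc (128 * (c : ℝ) * p ^ (A + 2))⁻¹ = η / (8 * (p + p)) := by
          rw [hη, hτ]; field_simp; ring
      _ ≤ _ := by gcongr
  have hl3 := hp₀ p ((le_max_left _ _).trans hpp) ((2 * a' : ℕ) : ℝ) (by positivity) (by
    have : ((a' : ℝ)) * a' ≤ p := by exact_mod_cast hsq
    push_cast; nlinarith)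
  have hl4 := mul_le_mul_of_nonneg_left hl2 (by positivity : (0 : ℝ) ≤ ((2 * a' : ℕ) : ℝ))
  have hl5 := mul_le_mul_of_nonneg_left hM (by positivity : (0 : ℝ) ≤ (p : ℝ))
  linarith

end Pool.Agent.MP_c1891a_nt.H91
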